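import Pool.Agent.Helper54_Exc.Coa

/-! TRI: returned to the window implies coalesced (helper11). -/

namespace Pool.Agent.Helper54Exc

open Filter Topology Pool.Agent.Helper28Excl

set_option linter.unusedSectionVars false
set_option linter.unusedVariables false

/-- Three copies with the same marks. -/
def XP : JumpSys (Config × (Config × Config)) where
  T u v := (X.T u v).prodMap (XX.T u v)
  agree N z z' := X.agree N z.1 z'.1 ∧ XX.agree N z.2 z'.2
  agree_refl _ _ := ⟨X.agree_refl _ _, XX.agree_refl _ _⟩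
  agree_mono h h' := ⟨X.agree_mono h h'.1, XX.agree_mono h h'.2⟩
  loc z hu hv := ⟨X.loc z.1 hu hv, XX.loc z.2 hu hv⟩
  pres hu hv h := ⟨X.pres hu hv h.1, XX.pres hu hv h.2⟩

lemma XP_T (u v : ℤ) (z : Config × (Config × Config)) :
    XP.T u v z = (jmp u v z.1, (jmp u v z.2.1, jmp u v z.2.2)) := rfl

/-- The three projections and the projection to the pair. -/
def q0 : C(Config × (Config × Config), Config) := ⟨fun z => z.1, continuous_fst⟩

def q1 : C(Config × (Config × Config), Config) :=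
  ⟨fun z => z.2.1, continuous_fst.comp continuous_snd⟩

def q2 : C(Config × (Config × Config), Config) :=
  ⟨fun z => z.2.2, continuous_snd.comp continuous_snd⟩

def q12 : C(Config × (Config × Config), Config × Config) := ⟨fun z => z.2, continuous_snd⟩

lemma one_sum {N : ℕ} {c : Bool} {a b : ℤ} {β o₁ o₂ : Config} (h₁ : One N c a β o₁)
    (h₂ : One N c b β o₂) : cnt sd N (o₁, o₂) ≤ if a = b then 0 else 2 := by
  obtain ⟨ha, a1, a2, a3⟩ := h₁
  obtain ⟨hb, b1, b2, b3⟩ := h₂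
  rw [cnt_apply]
  split_ifs with hab
  · subst hab
    refine (Finset.sum_eq_zero fun x hx => ?_).le
    have e : o₁ x = o₂ x := by
      by_cases hxa : x = a
      · rw [hxa, a2, b2]
      · rw [← a3 x hx hxa, ← b3 x hx hxa]
    change sd (o₁ x) (o₂ x) = 0
    rw [e]
    simp [sd]
  · have h : ∀ x ∈ box N, sd (o₁ x) (o₂ x) ≤ (if x = a then 1 else 0) + if x = b then 1 else 0 := by
      intro x hx
      by_cases hxa : x = a
      · rw [if_pos hxa]
        have : sd (o₁ x) (o₂ x) ≤ 1 := by unfold sd; split_ifs <;> norm_num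
        have h2 : (0:ℝ) ≤ if x = b then 1 else 0 := by split_ifs <;> norm_num
        linarith
      · by_cases hxb : x = b
        · rw [if_pos hxb, if_neg hxa]
          have : sd (o₁ x) (o₂ x) ≤ 1 := by unfold sd; split_ifs <;> norm_num
          linarith
        · rw [if_neg hxa, if_neg hxb]
          have e : o₁ x = o₂ x := by rw [← a3 x hx hxa, ← b3 x hx hxb]
          rw [e]
          simp [sd]
    refine (Finset.sum_le_sum h).trans ?_
    rw [Finset.sum_add_distrib, Finset.sum_ite_eq', Finset.sum_ite_eq', if_pos ha, if_pos hb]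
    norm_num

lemma Phi_One_le {N : ℕ} {c : Bool} {a b : ℤ} {β o₁ o₂ : Config} (h₁ : One N c a β o₁)
    (h₂ : One N c b β o₂) : Phi N (o₁, o₂) ≤ if a = b then 0 else 1 := by
  rw [Phi_apply]
  have h := one_sum h₁ h₂
  split_ifs at h ⊢ <;> linarith

lemma opp_One {N : ℕ} {c : Bool} {a b : ℤ} {β o₁ o₂ : Config} (h₁ : One N c a β o₁)
    (h₂ : One N c b β o₂) (hab : a ≠ b) : opp a b (o₁, o₂) = 1 := by
  obtain ⟨ha, a1, a2, a3⟩ := h₁
  obtain ⟨hb, b1, b2, b3⟩ := h₂
  have e1 : o₂ a = !c := by rw [← b3 a ha hab, a1]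
  have e2 : o₁ b = !c := by rw [← a3 b hb (Ne.symm hab), b1]
  rw [opp_apply]
  simp only [a2, b2, e1, e2]
  cases c <;> simp [sp, sm]

lemma tri_point {R N : ℕ} (hRN : R ≤ N) {c : Bool} {a b : ℤ} {β o₁ o₂ : Config}
    (h₁ : One N c a β o₁) (h₂ : One N c b β o₂) :
    Phi N (o₁, o₂) ≤ (1 - sgn c * (pc R o₁ - pc R β)) + (1 - sgn c * (pc R o₂ - pc R β))
      + ∑ q ∈ box R ×ˢ box R, opp q.1 q.2 (o₁, o₂) := by
  rw [pc_One hRN h₁, pc_One hRN h₂]
  have h := Phi_One_le h₁ h₂
  have h0 : 0 ≤ ∑ q ∈ box R ×ˢ box R, opp q.1 q.2 (o₁, o₂) :=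
    Finset.sum_nonneg fun q _ => opp_nonneg _ _ _
  by_cases hab : a = b
  · rw [if_pos hab] at h
    split_ifs <;> linarith
  · rw [if_neg hab] at h
    by_cases ha : a ∈ box R
    · by_cases hb : b ∈ box R
      · have h1 : opp a b (o₁, o₂) ≤ ∑ q ∈ box R ×ˢ box R, opp q.1 q.2 (o₁, o₂) :=
          Finset.single_le_sum (f := fun q : ℤ × ℤ => opp q.1 q.2 (o₁, o₂))
            (fun q _ => opp_nonneg _ _ _) (Finset.mk_mem_product ha hb)
        rw [opp_One h₁ h₂ hab] at h1
        rw [if_pos ha, if_pos hb]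
        linarith
      · rw [if_neg hb]
        split_ifs <;> linarith
    · rw [if_neg ha]
      split_ifs <;> linarith

theorem tri (hC : CoaStmt) : TriStmt := by
  intro k R N t r hRN ht hr hp c a b β o₁ o₂ h₁ h₂
  set A : Set (Config × (Config × Config)) :=
    {z | (∃ a, One N c a z.1 z.2.1) ∧ ∃ b, One N c b z.1 z.2.2} with hA
  have hAT : ∀ u ∈ box N, ∀ v ∈ box N, ∀ z ∈ A, XP.T u v z ∈ A := by
    rintro u hu v hv z ⟨⟨a, ha⟩, b, hb⟩
    exact ⟨One_T ha hu hv, One_T hb hu hv⟩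
  have hz : (β, (o₁, o₂)) ∈ A := ⟨⟨a, h₁⟩, b, h₂⟩
  have h0 := Rop_mono_on XP k (N := N) ht.le hAT (f := pull q12 (Phi N))
    (g := (1 - sgn c • (pull q1 (pc R) - pull q0 (pc R)))
      + (1 - sgn c • (pull q2 (pc R) - pull q0 (pc R)))
      + pull q12 (∑ q ∈ box R ×ˢ box R, opp q.1 q.2)) (fun z hz => by
      obtain ⟨⟨a, ha⟩, b, hb⟩ := hz
      have := tri_point hRN ha hb
      have e : (∑ q ∈ box R ×ˢ box R, opp q.1 q.2 : C(Config × Config, ℝ)) z.2 =
          ∑ q ∈ box R ×ˢ box R, opp q.1 q.2 z.2 := by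
        rw [ContinuousMap.coe_sum, Finset.sum_apply]
      change Phi N z.2 ≤ (1 - sgn c * (pc R z.2.1 - pc R z.1))
        + (1 - sgn c * (pc R z.2.2 - pc R z.1))
        + (∑ q ∈ box R ×ˢ box R, opp q.1 q.2 : C(Config × Config, ℝ)) z.2
      rw [e]
      exact this) hz
  have e0 : Rop XP k N t (pull q0 (pc R)) (β, (o₁, o₂)) = hR k R N t β := by
    rw [Rop_pull (J := X) (J' := XP) (k := k) q0 (fun _ _ _ => rfl) N ht.le (pc R)]
    rfl
  have e1 : Rop XP k N t (pull q1 (pc R)) (β, (o₁, o₂)) = hR k R N t o₁ := by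
    rw [Rop_pull (J := X) (J' := XP) (k := k) q1 (fun _ _ _ => rfl) N ht.le (pc R)]
    rfl
  have e2 : Rop XP k N t (pull q2 (pc R)) (β, (o₁, o₂)) = hR k R N t o₂ := by
    rw [Rop_pull (J := X) (J' := XP) (k := k) q2 (fun _ _ _ => rfl) N ht.le (pc R)]
    rfl
  have e3 : ∀ f : C(Config × Config, ℝ), Rop XP k N t (pull q12 f) (β, (o₁, o₂)) =
      Rop XX k N t f (o₁, o₂) := fun f => by
    rw [Rop_pull (J := XX) (J' := XP) (k := k) q12 (fun _ _ _ => rfl) N ht.le f]
    rfl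
  rw [Rop_add XP k N ht.le, Rop_add XP k N ht.le, Rop_sub XP k N ht.le, Rop_sub XP k N ht.le,
    Rop_one XP k ht.le, Rop_smul, Rop_smul, Rop_sub XP k N ht.le, Rop_sub XP k N ht.le] at h0
  simp only [ContinuousMap.add_apply, ContinuousMap.sub_apply, ContinuousMap.smul_apply,
    ContinuousMap.one_apply, smul_eq_mul, e0, e1, e2, e3] at h0
  have h3 := hC.opp_le k R N t r hRN ht hr hp (o₁, o₂)
  have h4 : Phi N (o₁, o₂) ≤ 1 := by
    have := Phi_One_le h₁ h₂
    split_ifs at this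
    · linarith
    · exact this
  have h5 : 0 ≤ 2 / (r * t) := by positivity
  have h6 := mul_le_mul_of_nonneg_left h4 h5
  change Rop XX k N t (Phi N) (o₁, o₂) ≤ _
  linarith

theorem tri_stmt : TriStmt := tri coa_stmt

end Pool.Agent.Helper54Exc
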